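import Mathlib
import Pool.Agent.Lib_MP_8386ec_mi.Lower2

/-!
MP_8386ec_co: the numbers `a_{n,k}` of cosets `C` of `Z_n` in `S_n` with `minv C = k` increase
strictly up to `k = n ^ 2 (1 / 4 - 45 (log n / n) ^ (1 / 3))`.
-/

namespace Pool.Agent.Results.MP_8386ec_co.LowerAsymptotic

open MP8386ec

/-- For all `n` and `k` with `k + 1 ≤ n ^ 2 (1 / 4 - 45 (log n / n) ^ (1 / 3))`:
`a_{n,k} < a_{n,k+1}`. -/
theorem result (n k : ℕ)
    (hk : (k : ℝ) + 1 ≤ (n : ℝ) ^ 2 * (1 / 4 - 45 * (Real.log n / n) ^ ((1 : ℝ) / 3))) :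
    coeffM n k < coeffM n (k + 1) :=
  lower_asymp n k hk

end Pool.Agent.Results.MP_8386ec_co.LowerAsymptotic
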