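import Mathlib
import Pool.Agent.Lib_MP_8386ec_mi.Lower1

/-!
MP_8386ec_co: the numbers `a_{n,k}` of cosets `C` of `Z_n` in `S_n` with `minv C = k` increase
weakly up to `k = n ^ 2 / 8 - n`, for every `n`.
-/

namespace Pool.Agent.Results.MP_8386ec_co.LowerPart

open MP8386ec

/-- For all `n` and `k` with `8 (k + 1) + 8 n ≤ n ^ 2`: `a_{n,k} ≤ a_{n,k+1}`. -/
theorem result (n k : ℕ) (hk : 8 * (k + 1) + 8 * n ≤ n ^ 2) :
    coeffM n k ≤ coeffM n (k + 1) :=
  lower_part n k hk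

end Pool.Agent.Results.MP_8386ec_co.LowerPart
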