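import Mathlib
import Pool.Agent.Lib_MP_8386ec_mi.Upper

/-!
MP_8386ec_co: the numbers `a_{n,k}` of cosets `C` of `Z_n` in `S_n` with `minv C = k` decrease
weakly from `k = n (n - 1) / 4` on, for every `n ≥ 1`.
-/

namespace Pool.Agent.Results.MP_8386ec_co.UpperHalf

open MP8386ec

/-- For all `n ≥ 1` and all `k` with `4 (k + 1) > n (n - 1)`: `a_{n,k+1} ≤ a_{n,k}`. -/
theorem result (n k : ℕ) (hn : 1 ≤ n) (hk : n * (n - 1) < 4 * (k + 1)) :
    coeffM n (k + 1) ≤ coeffM n k :=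
  upper_half n k hn hk

end Pool.Agent.Results.MP_8386ec_co.UpperHalf
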